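import Pool.Agent.Work.MP_dcf6a6_tv.Interface

open CategoryTheory AlgebraicGeometry

namespace Pool.TVar.helper73

noncomputable section

/-- The Nullstellensatz for a maximal ideal of a finitely generated `ℂ`-algebra. -/
theorem exists_char {R : Type} [CommRing R] [Algebra ℂ R] [Algebra.FiniteType ℂ R] (M : Ideal R)
    (hM : M.IsMaximal) : ∃ χ : R →ₐ[ℂ] ℂ, ∀ r, χ r = 0 ↔ r ∈ M := by
  let _ := Ideal.Quotient.field M
  have hfin : Module.Finite ℂ (R ⧸ M) := finite_of_finite_type_of_isJacobsonRing ℂ (R ⧸ M)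
  have hint : Algebra.IsIntegral ℂ (R ⧸ M) := Algebra.IsIntegral.of_finite ℂ (R ⧸ M)
  have hbij : Function.Bijective (algebraMap ℂ (R ⧸ M)) :=
    IsAlgClosed.algebraMap_bijective_of_isIntegral
  let E : ℂ ≃ₐ[ℂ] (R ⧸ M) := AlgEquiv.ofBijective (Algebra.ofId ℂ (R ⧸ M)) hbij
  refine ⟨(E.symm : (R ⧸ M) →ₐ[ℂ] ℂ).comp (Ideal.Quotient.mkₐ ℂ M), fun r => ?_⟩
  rw [AlgHom.comp_apply]
  have h1 : (E.symm : (R ⧸ M) →ₐ[ℂ] ℂ) (Ideal.Quotient.mkₐ ℂ M r) = 0 ↔
      Ideal.Quotient.mkₐ ℂ M r = 0 := by
    constructor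
    · intro h
      have := congrArg E h
      rw [map_zero] at this
      rw [← this]
      exact (E.apply_symm_apply _).symm
    · intro h
      rw [h, map_zero]
  rw [h1]
  exact Ideal.Quotient.eq_zero_iff_mem

theorem stmt_PTS (hRET : Stmt_RET) : Stmt_PTS := by
  intro A _ _ 𝒜 _ g α β m s hft hg hm hα hβ hαd hβd x hx hxc
  classical
  obtain ⟨ρ, hρ, hρa⟩ := hRET 𝒜 g α β m s hg hα hβ hαd hβd
  -- the algebra structure on `R0`
  let _ : Algebra ℂ (HomogeneousLocalization.Away 𝒜 g) := (strAway 𝒜 g).toAlgebra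
  have halg : ∀ c : ℂ, ρ (algebraMap ℂ (Localization.Away g) c) =
      algebraMap ℂ (HomogeneousLocalization.Away 𝒜 g) c := by
    intro c
    have : algebraMap ℂ (Localization.Away g) c =
        (algebraMap ℂ (HomogeneousLocalization.Away 𝒜 g) c).val := by
      change _ = (strAway 𝒜 g c).val
      rw [IsScalarTower.algebraMap_apply ℂ A (Localization.Away g)]
      change _ = (HomogeneousLocalization.mk _).val
      rw [HomogeneousLocalization.val_mk]
      exact (Localization.mk_one_eq_algebraMap _).symm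
    rw [this, hρ]
  let ρ' : Localization.Away g →ₐ[ℂ] HomogeneousLocalization.Away 𝒜 g :=
    { ρ with commutes' := halg }
  have hsurj : Function.Surjective ρ' := fun z => ⟨z.val, hρ z⟩
  have hfg : Algebra.FiniteType ℂ (Localization.Away g) :=
    Algebra.FiniteType.trans hft (IsLocalization.finiteType_of_monoid_fg (Submonoid.powers g) _)
  have hfR : Algebra.FiniteType ℂ (HomogeneousLocalization.Away 𝒜 g) :=
    Algebra.FiniteType.of_surjective ρ' hsurj
  -- the point of `Spec R0`
  have hrange : x ∈ (Proj.awayι 𝒜 g hg hm).opensRange := by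
    rw [Proj.opensRange_awayι]; exact hx
  obtain ⟨p, hp⟩ := hrange
  have hpc : IsClosed ({p} : Set (PrimeSpectrum (HomogeneousLocalization.Away 𝒜 g))) := by
    have h1 : IsClosed ((Proj.awayι 𝒜 g hg hm) ⁻¹' {x}) :=
      hxc.preimage (Proj.awayι 𝒜 g hg hm).continuous
    have h2 : (Proj.awayι 𝒜 g hg hm) ⁻¹' {x} = {p} := by
      ext q
      simp only [Set.mem_preimage, Set.mem_singleton_iff]
      constructor
      · intro h
        exact (Proj.awayι 𝒜 g hg hm).isOpenEmbedding.injective (h.trans hp.symm)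
      · rintro rfl; exact hp
    rw [h2] at h1
    exact h1
  have hmax : p.asIdeal.IsMaximal := (PrimeSpectrum.isClosed_singleton_iff_isMaximal p).mp hpc
  obtain ⟨χ, hχ⟩ := exists_char p.asIdeal hmax
  have hρg : IsUnit (ρ (algebraMap A (Localization.Away g) g)) :=
    (IsLocalization.Away.algebraMap_isUnit g).map ρ
  let e : A →ₐ[ℂ] ℂ := (χ.comp ρ').comp (IsScalarTower.toAlgHom ℂ A (Localization.Away g))
  have he : ∀ a, e a = χ (ρ (algebraMap A (Localization.Away g) a)) := fun a => rfl
  have heg : e g ≠ 0 := by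
    rw [he]; exact (hρg.map χ).ne_zero
  have key : ∀ n, 0 < n → ∀ a ∈ 𝒜 n, a ∈ x.asHomogeneousIdeal ↔ e a = 0 := by
    intro n hn a ha
    have h1 : x ∈ Proj.basicOpen 𝒜 a ↔
        p ∈ PrimeSpectrum.basicOpen (HomogeneousLocalization.Away.isLocalizationElem hg ha) := by
      rw [← Proj.awayι_preimage_basicOpen 𝒜 hg hm ha hn, ← hp]
      rfl
    rw [Proj.mem_basicOpen] at h1
    have h2 : p ∈ PrimeSpectrum.basicOpen (HomogeneousLocalization.Away.isLocalizationElem hg ha) ↔
        HomogeneousLocalization.Away.isLocalizationElem hg ha ∉ p.asIdeal := Iff.rfl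
    rw [h2, not_iff_not, ← hχ] at h1
    rw [h1, he]
    have h3 : (HomogeneousLocalization.Away.isLocalizationElem hg ha).val *
        algebraMap A (Localization.Away g) (g ^ n) =
          algebraMap A (Localization.Away g) (a ^ m) := by
      rw [HomogeneousLocalization.Away.val_mk, Localization.mk_eq_mk']
      exact IsLocalization.mk'_spec _ _ _
    have h4 := congrArg ρ h3
    rw [map_mul, hρ, map_pow, map_pow, map_pow, map_pow] at h4
    have h5 := congrArg χ h4
    rw [map_mul, map_pow, map_pow] at h5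
    have h6 : χ (ρ (algebraMap A (Localization.Away g) g)) ^ n ≠ 0 :=
      pow_ne_zero _ (hρg.map χ).ne_zero
    constructor
    · intro h
      rw [h, zero_mul] at h5
      exact pow_eq_zero_iff hm.ne' |>.mp h5.symm
    · intro h
      rw [h, zero_pow hm.ne'] at h5
      exact (mul_eq_zero.mp h5).resolve_right h6
  refine ⟨e, heg, ?_⟩
  intro n a ha
  rcases Nat.eq_zero_or_pos n with rfl | hn
  · have h1 : a * g ∈ 𝒜 m := by
      have := SetLike.mul_mem_graded ha hg
      simpa using this
    have h2 := key m hm (a * g) h1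
    rw [map_mul] at h2
    constructor
    · intro h
      have h3 := h2.mp (x.asHomogeneousIdeal.toIdeal.mul_mem_right g h)
      exact (mul_eq_zero.mp h3).resolve_right heg
    · intro h
      rw [h, zero_mul] at h2
      have h3 := h2.mpr rfl
      exact (x.isPrime.mem_or_mem h3).resolve_right hx
  · exact key n hn a ha

end

end Pool.TVar.helper73
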