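import Pool.Agent.Work.MP_dcf6a6_tv.Interface

open CategoryTheory AlgebraicGeometry

namespace Pool.TVar.helper73

noncomputable section

section RET

variable {A : Type} [CommRing A] [Algebra ℂ A] (𝒜 : ℕ → Submodule ℂ A) [GradedAlgebra 𝒜]

/-- homogeneous cofactors -/
theorem exists_homog_cofactor {f α : A} {n s : ℕ} (hf : f ∈ 𝒜 n) (hα : α ∈ 𝒜 s) (hdvd : α ∣ f) :
    f = 0 ∨ ∃ t, s + t = n ∧ ∃ α' ∈ 𝒜 t, α * α' = f := by
  obtain ⟨γ, rfl⟩ := hdvd
  by_cases hsn : s ≤ n
  · right
    refine ⟨n - s, by omega, (DirectSum.decompose 𝒜 γ (n - s) : A), SetLike.coe_mem _, ?_⟩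
    have h1 := DirectSum.coe_decompose_mul_of_left_mem_of_le 𝒜 (b := γ) hα hsn
    rw [← h1]
    exact DirectSum.decompose_of_mem_same 𝒜 hf
  · left
    have h1 := DirectSum.coe_decompose_mul_of_left_mem_of_not_le 𝒜 (b := γ) hα hsn
    rw [DirectSum.decompose_of_mem_same 𝒜 hf] at h1
    exact h1

/-- the additive map `x ↦ x θ^n` on the part of degree `n` -/
def twistAdd {L : Type} [CommRing L] (a : A →+* L) (θ : L) (n : ℕ) : 𝒜 n →+ L where
  toFun x := a x * θ ^ n
  map_zero' := by simp
  map_add' x y := by simp [add_mul]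

/-- the ring homomorphism `x ↦ ∑ x_n θ^n` -/
def twist {L : Type} [CommRing L] (a : A →+* L) (θ : L) : A →+* L :=
  (DirectSum.toSemiring (twistAdd 𝒜 a θ)
    (by simp [twistAdd, SetLike.coe_gOne])
    (by intro i j x y; simp [twistAdd, SetLike.coe_gMul, pow_add]; ring)).comp
      (DirectSum.decomposeRingEquiv 𝒜).toRingHom

theorem twist_of_mem {L : Type} [CommRing L] (a : A →+* L) (θ : L) {n : ℕ} {x : A}
    (hx : x ∈ 𝒜 n) : twist 𝒜 a θ x = a x * θ ^ n := by
  unfold twist
  rw [RingHom.comp_apply]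
  have : (DirectSum.decomposeRingEquiv 𝒜).toRingHom x = DirectSum.of (fun i => 𝒜 i) n ⟨x, hx⟩ :=
    DirectSum.decompose_of_mem 𝒜 hx
  rw [this, DirectSum.toSemiring_of]
  rfl

theorem stmt_RET : Stmt_RET := by
  intro A _ _ 𝒜 _ h α β m s hh hα hβ hαd hβd
  classical
  set L := Localization.Away h with hL
  set R0 := HomogeneousLocalization.Away 𝒜 h with hR0
  set a : A →+* L := algebraMap A L with ha
  have hinj : Function.Injective (fun z : R0 => (z.val : L)) :=
    HomogeneousLocalization.val_injective (Submonoid.powers h)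
  have hahu : IsUnit (a h) := IsLocalization.Away.algebraMap_isUnit h
  by_cases htriv : Subsingleton L
  · have : Subsingleton R0 := ⟨fun x y => hinj (Subsingleton.elim _ _)⟩
    refine ⟨⟨⟨⟨fun _ => 0, Subsingleton.elim _ _⟩, fun _ _ => Subsingleton.elim _ _⟩,
      Subsingleton.elim _ _, fun _ _ => Subsingleton.elim _ _⟩, fun _ => Subsingleton.elim _ _,
      fun _ _ _ => Subsingleton.elim _ _⟩
  have hne : ∀ i, h ^ i ≠ 0 := by
    intro i hi
    apply htriv
    have h1 : IsUnit (0 : L) := by
      have := hahu.pow i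
      rwa [← map_pow, hi, map_zero] at this
    exact subsingleton_of_zero_eq_one (isUnit_zero_iff.mp h1)
  obtain ⟨i, hi⟩ := hαd
  obtain ⟨i', hi'⟩ := hβd
  have hpow : ∀ k, h ^ k ∈ 𝒜 (k * m) := fun k => by
    have := SetLike.pow_mem_graded k hh
    simpa using this
  obtain ⟨t, ht, α', hα', hαα'⟩ := (exists_homog_cofactor 𝒜 (hpow i) hα hi).resolve_left (hne i)
  obtain ⟨t', ht', β', hβ', hββ'⟩ :=
    (exists_homog_cofactor 𝒜 (hpow i') hβ hi').resolve_left (hne i')
  have hαu : IsUnit (a α) := by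
    have h1 : IsUnit (a α * a α') := by rw [← map_mul, hαα', map_pow]; exact hahu.pow i
    exact isUnit_of_mul_isUnit_left h1
  have hβu : IsUnit (a β) := by
    have h1 : IsUnit (a β * a β') := by rw [← map_mul, hββ', map_pow]; exact hahu.pow i'
    exact isUnit_of_mul_isUnit_left h1
  obtain ⟨uα, huα⟩ := hαu
  obtain ⟨uβ, huβ⟩ := hβu
  set θ : L := a β * ↑uα⁻¹ with hθ
  have hθα : θ * a α = a β := by
    rw [hθ, ← huα, mul_assoc, Units.inv_mul, mul_one]
  have hθu : IsUnit θ := by
    rw [hθ, ← huβ]; exact (Units.isUnit _).mul (Units.isUnit _)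
  set g0 : A →+* L := twist 𝒜 a θ with hg0
  have hg0m : ∀ n x, x ∈ 𝒜 n → g0 x = a x * θ ^ n := fun n x hx => twist_of_mem 𝒜 a θ hx
  -- elements of the form `num / h ^ k`
  have hval : ∀ (n k : ℕ) (x : A) (_ : x ∈ 𝒜 (k * m)), ∃ z : R0, z.val * a (h ^ k) = a x := by
    intro n k x hx
    refine ⟨HomogeneousLocalization.mk ⟨k * m, ⟨x, hx⟩, ⟨h ^ k, hpow k⟩, ⟨k, rfl⟩⟩, ?_⟩
    rw [HomogeneousLocalization.val_mk, Localization.mk_eq_mk']
    exact IsLocalization.mk'_spec _ _ _
  have hmem : ∀ n x, x ∈ 𝒜 n → ∃ z : R0, z.val = g0 x := by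
    intro n x hx
    have hx' : x * (β ^ n * α' ^ n) ∈ 𝒜 ((i * n) * m) := by
      have h1 : β ^ n ∈ 𝒜 (n * s) := by simpa using SetLike.pow_mem_graded n hβ
      have h2 : α' ^ n ∈ 𝒜 (n * t) := by simpa using SetLike.pow_mem_graded n hα'
      have h3 := SetLike.mul_mem_graded hx (SetLike.mul_mem_graded h1 h2)
      have h4 : n + (n * s + n * t) = (i * n) * m := by
        have : (i * n) * m = n * (i * m) := by ring
        rw [this, ← ht]; ring
      rwa [h4] at h3
    obtain ⟨z, hz⟩ := hval n (i * n) _ hx'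
    refine ⟨z, ?_⟩
    have hu : IsUnit (a (h ^ (i * n))) := by rw [map_pow]; exact hahu.pow _
    apply hu.mul_right_cancel
    rw [hz, hg0m n x hx, pow_mul, ← hαα']
    simp only [map_mul, map_pow]
    rw [← hθα]
    ring
  have hmem' : ∀ x, ∃ z : R0, z.val = g0 x := by
    intro x
    have hx := DirectSum.sum_support_decompose 𝒜 x
    choose z hz using fun n => hmem n (DirectSum.decompose 𝒜 x n : A) (SetLike.coe_mem _)
    refine ⟨∑ n ∈ (DirectSum.decompose 𝒜 x).support, z n, ?_⟩
    have h1 : (∑ n ∈ (DirectSum.decompose 𝒜 x).support, z n).val =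
        ∑ n ∈ (DirectSum.decompose 𝒜 x).support, (z n).val := by
      exact map_sum (algebraMap R0 L) _ _
    rw [h1]
    conv_rhs => rw [← hx]
    rw [map_sum]
    exact Finset.sum_congr rfl (fun n _ => hz n)
  -- the map to `R0`
  choose g2 hg2 using hmem'
  have hvm : ∀ x y : R0, (x * y).val = x.val * y.val := fun x y => HomogeneousLocalization.val_mul x y
  have hva : ∀ x y : R0, (x + y).val = x.val + y.val := fun x y => HomogeneousLocalization.val_add x y
  let G : A →+* R0 :=
    { toFun := g2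
      map_one' := hinj (by
        change (g2 1).val = (1 : R0).val
        rw [hg2, map_one, HomogeneousLocalization.val_one])
      map_mul' := fun x y => hinj (by
        change (g2 (x * y)).val = (g2 x * g2 y).val
        rw [hvm, hg2, hg2, hg2, map_mul])
      map_zero' := hinj (by
        change (g2 0).val = (0 : R0).val
        rw [hg2, map_zero, HomogeneousLocalization.val_zero])
      map_add' := fun x y => hinj (by
        change (g2 (x + y)).val = (g2 x + g2 y).val
        rw [hva, hg2, hg2, hg2, map_add]) }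
  have hG : ∀ x, (G x).val = g0 x := hg2
  have hGu : IsUnit (G h) := by
    have hx' : α ^ m * β' ^ m ∈ 𝒜 ((1 + i' * m) * m) := by
      have h1 : α ^ m ∈ 𝒜 (m * (s + 1)) := by simpa using SetLike.pow_mem_graded m hα
      have h2 : β' ^ m ∈ 𝒜 (m * t') := by simpa using SetLike.pow_mem_graded m hβ'
      have h3 := SetLike.mul_mem_graded h1 h2
      have h4 : m * (s + 1) + m * t' = (1 + i' * m) * m := by
        have : (1 + i' * m) * m = m + m * (i' * m) := by ring
        rw [this, ← ht']; ring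
      rwa [h4] at h3
    obtain ⟨z, hz⟩ := hval 0 (1 + i' * m) _ hx'
    refine IsUnit.of_mul_eq_one z (hinj ?_)
    change (G h * z).val = (1 : R0).val
    rw [hvm, hG, HomogeneousLocalization.val_one, hg0m m h hh]
    have hu : IsUnit (a (h ^ (1 + i' * m))) := by rw [map_pow]; exact hahu.pow _
    apply hu.mul_right_cancel
    rw [one_mul, mul_assoc, hz]
    have h5 : a (h ^ (1 + i' * m)) = a h * (a β * a β') ^ m := by
      rw [pow_add, pow_one, pow_mul, ← hββ']; simp only [map_mul, map_pow]
    rw [h5, ← hθα]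
    simp only [map_mul, map_pow]
    ring
  refine ⟨IsLocalization.Away.lift h hGu, ?_, ?_⟩
  · intro z
    apply hinj
    change ((IsLocalization.Away.lift h hGu) z.val).val = z.val
    obtain ⟨c, rfl⟩ := HomogeneousLocalization.mk_surjective z
    have h1 : (HomogeneousLocalization.mk c : R0).val * a c.den = a c.num := by
      rw [HomogeneousLocalization.val_mk, Localization.mk_eq_mk']
      exact IsLocalization.mk'_spec _ _ _
    have h2 := congrArg (IsLocalization.Away.lift (S := L) h hGu) h1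
    rw [map_mul, ha, IsLocalization.Away.lift_eq, IsLocalization.Away.lift_eq] at h2
    have h3 := congrArg (fun z : R0 => z.val) h2
    simp only [hvm, hG] at h3
    rw [hg0m _ _ c.den.2, hg0m _ _ c.num.2, ← h1] at h3
    have hdu : IsUnit (a c.den) := by
      obtain ⟨k, hk⟩ := c.den_mem
      have : a c.den = a h ^ k := by rw [← map_pow]; exact congrArg a hk.symm
      rw [this]; exact hahu.pow _
    have h4 : IsUnit (a c.den * θ ^ c.deg) := hdu.mul (hθu.pow _)
    apply h4.mul_right_cancel
    rw [h3]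
    ring
  · intro n x hx
    rw [IsLocalization.Away.lift_eq, hG, hg0m n x hx]
    simp only [map_mul, map_pow]
    rw [← hθα]
    ring

end RET

end

end Pool.TVar.helper73
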