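import Pool.Agent.Work.MP_dcf6a6_tv_helper73.FIN
import Pool.Agent.Work.MP_dcf6a6_tv_helper73.RET
import Pool.Agent.Work.MP_dcf6a6_tv_helper73.PTS
import Pool.Agent.Work.MP_dcf6a6_tv_helper74.BASE
import Pool.Agent.Work.MP_dcf6a6_tv_helper74.CYC
import Pool.Agent.Work.MP_dcf6a6_tv_helper54.DEG
import Pool.Agent.Work.MP_dcf6a6_tv_helper54.HERM
import Pool.Agent.Work.MP_dcf6a6_tv_helper54.QJ
import Pool.Agent.Work.MP_dcf6a6_tv_helper45.DENS
import Pool.Agent.Work.MP_dcf6a6_tv_helper45.GCD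
import Pool.Agent.Work.MP_dcf6a6_tv_helper68.FS
import Pool.Agent.Work.MP_dcf6a6_tv_helper68.SMO
import Pool.Agent.Work.MP_dcf6a6_tv_helper33.HOMG
import Pool.Agent.Work.MP_dcf6a6_tv_helper33.PHI
import Pool.Agent.Work.MP_dcf6a6_tv_helper76.LOC
import Pool.Agent.Work.MP_dcf6a6_tv_helper83.NZ
import Pool.Agent.Work.MP_dcf6a6_tv_helper83.RHO
import Pool.Agent.Work.MP_dcf6a6_tv_helper22.P1
import Pool.Agent.Work.MP_dcf6a6_tv_helper30.SQF
import Pool.Agent.Work.MP_dcf6a6_tv_helper30.CORE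
import Pool.Agent.Work.MP_dcf6a6_tv_helper39.ZED
import Pool.Agent.Work.MP_dcf6a6_tv_helper87.PMAP

namespace Pool.TVar.helper73

theorem main : Stmt_MAIN :=
  stmt_FIN
    (Pool.TVar.helper68.stmt_SMO stmt_RET Pool.TVar.helper45.stmt_GCD Pool.TVar.helper68.stmt_FS)
    Pool.TVar.helper76.stmt_LOC
    Pool.TVar.helper87.stmt_PMAP
    (stmt_PTS stmt_RET)
    Pool.TVar.helper45.stmt_GCD
    (Pool.TVar.helper30.stmt_CORE
      (Pool.TVar.helper74.stmt_BASE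
        (Pool.TVar.helper39.stmt_ZED Pool.TVar.helper54.stmt_DEG
          (Pool.TVar.helper30.stmt_SQF Pool.TVar.helper54.stmt_DEG))
        Pool.TVar.helper54.stmt_QJ)
      Pool.TVar.helper74.stmt_CYC Pool.TVar.helper83.stmt_RHO Pool.TVar.helper54.stmt_HERM)
    (Pool.TVar.helper33.stmt_PHI Pool.TVar.helper33.stmt_HOMG)
    Pool.TVar.helper22.stmt_P1
    Pool.TVar.helper83.stmt_NZ
    Pool.TVar.helper45.stmt_DENS

end Pool.TVar.helper73
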