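import Pool.Agent.Work.MP_dcf6a6_tv.Interface

open CategoryTheory AlgebraicGeometry

namespace Pool.TVar.helper73

noncomputable section

variable {J K I B : Type} [Fintype J] [Fintype K] [Fintype B]
    [DecidableEq J] [DecidableEq K] [DecidableEq I] {D : Data J K I B}
    {A : Type} [CommRing A] [Algebra ℂ A] {𝒜 : ℕ → Submodule ℂ A} [GradedAlgebra 𝒜]

/-- the image of the variable `v` -/
abbrev xv (pr : D.Pres A 𝒜) (v : J ⊕ K) : A := pr.π (MvPolynomial.X v)

theorem wt_pos (D : Data J K I B) (v : J ⊕ K) : 0 < D.wt v := by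
  cases v with
  | inl j => exact D.w_pos j
  | inr k => exact D.u_pos k

theorem prod_mem (pr : D.Pres A 𝒜) (S : Finset (J ⊕ K)) :
    ∏ v ∈ S, xv pr v ∈ 𝒜 (∑ v ∈ S, D.wt v) :=
  SetLike.prod_mem_graded 𝒜 _ _ (fun v _ => pr.graded v)

theorem prod_pow_mem (pr : D.Pres A 𝒜) (S : Finset (J ⊕ K)) (e : J ⊕ K → ℕ) :
    ∏ v ∈ S, xv pr v ^ e v ∈ 𝒜 (∑ v ∈ S, e v * D.wt v) := by
  have := SetLike.prod_mem_graded 𝒜 (F := S) (fun v => e v • D.wt v) (fun v => xv pr v ^ e v)
    (fun v _ => SetLike.pow_mem_graded _ (pr.graded v))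
  simpa using this

theorem prod_pow_dvd (pr : D.Pres A 𝒜) (S : Finset (J ⊕ K)) (e : J ⊕ K → ℕ) :
    ∃ i : ℕ, ∏ v ∈ S, xv pr v ^ e v ∣ (∏ v ∈ S, xv pr v) ^ i := by
  refine ⟨S.sup e, ?_⟩
  rw [← Finset.prod_pow]
  exact Finset.prod_dvd_prod_of_dvd _ _ (fun v hv => pow_dvd_pow _ (Finset.le_sup hv))

/-- every point of `Proj 𝒜` lies outside some coordinate hyperplane -/
theorem exists_notMem (pr : D.Pres A 𝒜) (x : Proj 𝒜) :
    ∃ v, xv pr v ∉ x.asHomogeneousIdeal := by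
  have hcov := Proj.iSup_basicOpen_eq_top' 𝒜 (fun v => xv pr v)
    (fun v => ⟨D.wt v, pr.graded v⟩) ?_
  · have hx : x ∈ (⨆ v, Proj.basicOpen 𝒜 (xv pr v)) := by rw [hcov]; trivial
    obtain ⟨v, hv⟩ := TopologicalSpace.Opens.mem_iSup.mp hx
    exact ⟨v, hv⟩
  · rw [eq_top_iff]
    rintro a -
    obtain ⟨P, rfl⟩ := pr.surj a
    induction P using MvPolynomial.induction_on with
    | C c =>
      have : pr.π (MvPolynomial.C c) = algebraMap (𝒜 0) A (algebraMap ℂ (𝒜 0) c) := by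
        rw [← MvPolynomial.algebraMap_eq, AlgHom.commutes]
        rfl
      rw [this]
      exact Subalgebra.algebraMap_mem _ _
    | add p q hp hq => rw [map_add]; exact Subalgebra.add_mem _ hp hq
    | mul_X p v hp =>
      rw [map_mul]
      exact Subalgebra.mul_mem _ hp (Algebra.subset_adjoin ⟨v, rfl⟩)

theorem prod_notMem (pr : D.Pres A 𝒜) (x : Proj 𝒜) (S : Finset (J ⊕ K))
    (h : ∀ v ∈ S, xv pr v ∉ x.asHomogeneousIdeal) :
    ∏ v ∈ S, xv pr v ∉ x.asHomogeneousIdeal := by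
  intro hmem
  have hp : x.asHomogeneousIdeal.toIdeal.IsPrime := x.isPrime
  have hmem' : ∏ v ∈ S, xv pr v ∈ x.asHomogeneousIdeal.toIdeal := hmem
  rw [hp.prod_mem_iff] at hmem'
  obtain ⟨v, hv, h'⟩ := hmem'
  exact h v hv h'

theorem erase_nonempty (D : Data J K I B) (v : J ⊕ K) :
    (Finset.univ.erase v).Nonempty := by
  rw [Finset.nonempty_iff_ne_empty]
  intro h
  have := D.wellformed v
  rw [h] at this
  simp at this

/-- points of `Proj 𝒜` with at most one vanishing coordinate are smooth -/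
theorem smooth_of (hSMO : Stmt_SMO) (hLOC : Stmt_LOC) (pr : D.Pres A 𝒜) (x : Proj 𝒜)
    (v : J ⊕ K) (h : ∀ v' ≠ v, xv pr v' ∉ x.asHomogeneousIdeal) :
    IsSmoothPt (structMap 𝒜) x := by
  refine hLOC 𝒜 (∏ v' ∈ Finset.univ.erase v, xv pr v')
    (∑ v' ∈ Finset.univ.erase v, D.wt v') (prod_mem pr _) ?_ (hSMO D 𝒜 pr v) x ?_
  · exact Finset.sum_pos (fun v' _ => wt_pos D v') (erase_nonempty D v)
  · exact prod_notMem pr x _ (fun v' hv' => h v' (Finset.ne_of_mem_erase hv'))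

theorem aev {ι : Type} (c : ι → ℂ) (P : MvPolynomial ι ℂ) :
    MvPolynomial.aeval c P = MvPolynomial.eval c P := by
  exact RingHom.congr_fun (MvPolynomial.coe_aeval_eq_eval c) P

/-- points of `Proj 𝒜` are determined by their homogeneous elements -/
theorem point_ext (x y : Proj 𝒜)
    (h : ∀ n, ∀ a ∈ 𝒜 n, a ∈ x.asHomogeneousIdeal ↔ a ∈ y.asHomogeneousIdeal) : x = y := by
  apply ProjectiveSpectrum.ext
  have key : ∀ (I : HomogeneousIdeal 𝒜) (a : A),
      a ∈ I ↔ ∀ i, (DirectSum.decompose 𝒜 a i : A) ∈ I := by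
    intro I a
    constructor
    · intro ha i
      exact I.isHomogeneous i ha
    · intro ha
      classical
      rw [← DirectSum.sum_support_decompose 𝒜 a]
      exact Ideal.sum_mem I.toIdeal (fun i _ => ha i)
  apply SetLike.ext
  intro a
  rw [key, key]
  exact forall_congr' (fun i => h i _ (SetLike.coe_mem _))

theorem algHom_ext_of (pr : D.Pres A 𝒜) {C : Type} [CommRing C] [Algebra ℂ C] (f g : A →ₐ[ℂ] C)
    (h : ∀ v, f (xv pr v) = g (xv pr v)) (a : A) : f a = g a := by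
  obtain ⟨P, rfl⟩ := pr.surj a
  have : f.comp pr.π = g.comp pr.π := MvPolynomial.algHom_ext h
  exact DFunLike.congr_fun this P

/-- the coordinate vector of a `ℂ`-point is a point of the affine cone -/
theorem isPt_of (pr : D.Pres A 𝒜) (e : A →ₐ[ℂ] ℂ) : D.IsPt (fun v => e (xv pr v)) := by
  intro a
  have hrel : pr.π (D.rel a) = 0 := by
    have : D.rel a ∈ RingHom.ker pr.π := by
      rw [pr.ker]; exact Ideal.subset_span ⟨a, rfl⟩
    exact this
  have h2 : e (pr.π (D.rel a)) = 0 := by rw [hrel, map_zero]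
  unfold Data.rel at h2
  rw [map_sub, map_sub, sub_eq_zero, map_prod, map_prod, map_prod, map_prod] at h2
  rw [h2]
  refine Finset.prod_congr rfl (fun b _ => ?_)
  rw [map_pow, map_pow]
  congr 1
  have : ((e.comp pr.π).comp (MvPolynomial.rename Sum.inr) : MvPolynomial K ℂ →ₐ[ℂ] ℂ) =
      MvPolynomial.aeval (fun k => e (xv pr (Sum.inr k))) := by
    apply MvPolynomial.algHom_ext
    intro k
    simp
  have h3 := DFunLike.congr_fun this (D.P b)
  rw [← MvPolynomial.coe_aeval_eq_eval]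
  exact h3

theorem stmt_FIN (hSMO : Stmt_SMO) (hLOC : Stmt_LOC) (hPMAP : Stmt_PMAP) (hPTS : Stmt_PTS)
    (hGCD : Stmt_GCD) (hCORE : Stmt_CORE) (hPHI : Stmt_PHI) (hP1 : Stmt_P1) (hNZ : Stmt_NZ)
    (hDENS : Stmt_DENS) : Stmt_MAIN := by
  intro J K I B _ _ _ _ _ _ D A _ _ _ 𝒜 _ pr
  classical
  have hdens : Dense (Proj.basicOpen 𝒜 (∏ v, xv pr v) : Set (Proj 𝒜)) := by
    refine hDENS 𝒜 _ (∑ v, D.wt v) (prod_mem pr Finset.univ) ?_
    exact Finset.prod_ne_zero_iff.mpr (fun v _ => hNZ D 𝒜 pr v)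
  have hmemU : ∀ x : Proj 𝒜, x ∈ Proj.basicOpen 𝒜 (∏ v, xv pr v) →
      ∀ v, xv pr v ∉ x.asHomogeneousIdeal := by
    intro x hx v hv
    apply hx
    exact x.asHomogeneousIdeal.toIdeal.mem_of_dvd (Finset.dvd_prod_of_mem _ (Finset.mem_univ v)) hv
  refine ⟨Proj.basicOpen 𝒜 (∏ v, xv pr v), hdens, ?_, ?_⟩
  · intro x hx
    obtain ⟨v, -⟩ := exists_notMem pr x
    exact smooth_of hSMO hLOC pr x v (fun v' _ => hmemU x hx v')
  · intro x y hx hy hxc hyc
    -- a coordinate and the Bezout exponents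
    obtain ⟨v₀, -⟩ := exists_notMem pr x
    have hgcd : (Finset.univ : Finset (J ⊕ K)).gcd D.wt = 1 := by
      have h1 := D.wellformed v₀
      have h2 : (Finset.univ : Finset (J ⊕ K)).gcd D.wt ∣ (Finset.univ.erase v₀).gcd D.wt := by
        apply Finset.gcd_mono
        exact Finset.erase_subset _ _
      have h3 : (Finset.univ.erase v₀).gcd D.wt = 1 := h1
      rw [h3] at h2
      exact Nat.dvd_one.mp h2
    obtain ⟨e, e', hee⟩ := hGCD Finset.univ D.wt hgcd
    have hft : Algebra.FiniteType ℂ A :=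
      Algebra.FiniteType.of_surjective pr.π pr.surj
    have hsum_pos : 0 < ∑ v, D.wt v :=
      Finset.sum_pos (fun v _ => wt_pos D v) ⟨v₀, Finset.mem_univ _⟩
    have hα : ∏ v, xv pr v ^ e v ∈ 𝒜 ((∑ v, e' v * D.wt v) + 1) := by
      rw [← hee]; exact prod_pow_mem pr _ e
    have hpts := hPTS 𝒜 (∏ v, xv pr v) (∏ v, xv pr v ^ e v) (∏ v, xv pr v ^ e' v)
      (∑ v, D.wt v) (∑ v, e' v * D.wt v) hft (prod_mem pr _) hsum_pos hα (prod_pow_mem pr _ e')
      (prod_pow_dvd pr _ e) (prod_pow_dvd pr _ e')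
    obtain ⟨ex, hexg, hex⟩ := hpts x hx hxc
    obtain ⟨ey, heyg, hey⟩ := hpts y hy hyc
    have hexv : ∀ v, ex (xv pr v) ≠ 0 := fun v h =>
      hmemU x hx v ((hex _ _ (pr.graded v)).mpr h)
    have heyv : ∀ v, ey (xv pr v) ≠ 0 := fun v h =>
      hmemU y hy v ((hey _ _ (pr.graded v)).mpr h)
    obtain ⟨N, τ, hN, hτ, hrel, hcop⟩ := hCORE D (fun v => ex (xv pr v)) (fun v => ey (xv pr v))
      (isPt_of pr ex) (isPt_of pr ey) hexv heyv
    obtain ⟨φ, hφgr, hφ1, hφ0, hφq⟩ := hPHI D 𝒜 pr (fun v => ey (xv pr v)) N τ hN heyv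
      (fun v => ⟨(hτ v).1, (hτ v).2.1⟩) hrel hcop
    have hq : ∀ q : Proj lineGr, ∀ v v', v ≠ v' → φ (xv pr v) ∈ q.asHomogeneousIdeal →
        φ (xv pr v') ∉ q.asHomogeneousIdeal := by
      intro q v v' hne h
      exact hφq q.asHomogeneousIdeal.toIdeal q.isPrime (hP1.2 q) v v' hne h
    obtain ⟨f, hfs, hf⟩ := hPMAP 𝒜 lineGr φ N hN hφgr (by
      intro q
      by_cases h : φ (xv pr v₀) ∈ q.asHomogeneousIdeal
      · obtain ⟨v', hv'⟩ := erase_nonempty D v₀
        exact ⟨D.wt v', wt_pos D v', _, pr.graded v',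
          hq q v₀ v' (Finset.ne_of_mem_erase hv').symm h⟩
      · exact ⟨D.wt v₀, wt_pos D v₀, _, pr.graded v₀, h⟩)
    have hfv : ∀ q v, xv pr v ∈ (f q).asHomogeneousIdeal ↔ φ (xv pr v) ∈ q.asHomogeneousIdeal :=
      fun q v => hf q _ _ (pr.graded v)
    -- the two points `(0 : 1)` and `(1 : 0)`
    obtain ⟨q0, hq0⟩ := hP1.1 ![0, 1] (by
      intro h; have := congrFun h 1; simp at this)
    obtain ⟨q1, hq1⟩ := hP1.1 ![1, 0] (by
      intro h; have := congrFun h 0; simp at this)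
    have hfx : f q0 = x := by
      apply point_ext
      intro n a ha
      rw [hf q0 n a ha, hq0 _ _ (hφgr n a ha), hex n a ha]
      have : MvPolynomial.eval ![0, 1] (φ a) = ex a := by
        have := algHom_ext_of pr ((MvPolynomial.aeval ![(0 : ℂ), 1]).comp φ) ex (fun v => by
          rw [AlgHom.comp_apply, aev]
          have h1 := hφ1 v 0
          rw [← (hτ v).2.2, Polynomial.coeff_zero_eq_eval_zero]
          exact h1) a
        rw [← this, AlgHom.comp_apply, aev]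
      rw [this]
    have hfy : f q1 = y := by
      apply point_ext
      intro n a ha
      rw [hf q1 n a ha, hq1 _ _ (hφgr n a ha), hey n a ha]
      have : MvPolynomial.eval ![1, 0] (φ a) = ey a := by
        have := algHom_ext_of pr ((MvPolynomial.aeval ![(1 : ℂ), 0]).comp φ) ey (fun v => by
          rw [AlgHom.comp_apply, aev]
          have h1 := hφ0 v 1
          simp only [one_pow, mul_one] at h1
          exact h1) a
        rw [← this, AlgHom.comp_apply, aev]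
      rw [this]
    refine ⟨f, hfs, ?_, ?_, ⟨q0, hfx⟩, ⟨q1, hfy⟩⟩
    · intro q
      by_cases h : ∃ v, xv pr v ∈ (f q).asHomogeneousIdeal
      · obtain ⟨v, hv⟩ := h
        refine smooth_of hSMO hLOC pr (f q) v (fun v' hv' h' => ?_)
        exact hq q v v' hv'.symm ((hfv q v).mp hv) ((hfv q v').mp h')
      · push Not at h
        exact smooth_of hSMO hLOC pr (f q) v₀ (fun v' _ => h v')
    · -- nonconstant: `τ v₀` has a root
      have hdeg : (τ v₀).degree ≠ 0 := by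
        intro h
        have h1 := Polynomial.natDegree_eq_of_degree_eq_some h
        rw [(hτ v₀).1] at h1
        exact (Nat.mul_pos hN (wt_pos D v₀)).ne' h1
      obtain ⟨t, ht⟩ := IsAlgClosed.exists_root (τ v₀) hdeg
      obtain ⟨qt, hqt⟩ := hP1.1 ![t, 1] (by
        intro h; have := congrFun h 1; simp at this)
      refine ⟨qt, q0, ?_⟩
      intro heq
      have h1 : xv pr v₀ ∈ (f qt).asHomogeneousIdeal := by
        rw [hfv, hqt _ _ (hφgr _ _ (pr.graded v₀)), hφ1]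
        exact ht
      rw [heq, hfx] at h1
      exact hmemU x hx v₀ h1

end

end Pool.TVar.helper73
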